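import Pool.Agent.Helper28.BX.Fin

/-!
Bahturin's question (MP_5ecbac_al): positive answer for all bracket structures without a balanced
node in the structure and its iterated skeletons; in particular for all structures with at most 19
letters and for all structures with at most 7 cherries.
-/

set_option linter.all false
universe u
namespace Pool.Agent.Results.MP_5ecbac_al.BalancedNodes

open Pool.Agent.Results.MP_5ecbac_al
open ThreeCherries ThreeCherries.Br Skeleton
open Pool.Agent.R325.BH
open Pool.Agent.Helper28.BX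

/-- `R` and `Q` have the same ratio of letters to cherries -/
def SameRatio (R Q : Br) : Prop := R.deg * Q.cherries = Q.deg * R.cherries

/-- the structure is a product of one-cherry structures all of which have `β + 1` letters -/
def Uniform (β : ℕ) : Br → Prop
  | leaf => False
  | node l r => ((node l r).cherries = 1 ∧ (node l r).deg = β + 1) ∨
      (l ≠ leaf ∧ r ≠ leaf ∧ Uniform β l ∧ Uniform β r)

/-- `(P, Q)` is balanced: `Q` has at least two cherries and is not uniform, the number of cherries
of `P` is a proper multiple of that of `Q`, and `P` is a product of two structures `P₁`, `P₂` with at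
least two cherries each, such that
* all of `P₁`, `P₂`, `Q` have the same ratio of letters to cherries,
* not all of `P₁`, `P₂`, `Q` have the same number of cherries,
* `P₁` has at least as many cherries as `P₂`, and the number of cherries of `P₁` is a combination
  with nonnegative integer coefficients of those of `P₂` and `Q`. -/
def Balanced (P Q : Br) : Prop := 2 ≤ Q.cherries ∧ Q.cherries < P.cherries ∧
  Q.cherries ∣ P.cherries ∧ (¬ ∃ β : ℕ, Uniform β Q) ∧
  ∃ P₁ P₂ : Br, (P = node P₁ P₂ ∨ P = node P₂ P₁) ∧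
    SameRatio P₁ Q ∧ SameRatio P₂ Q ∧
    ¬ (P₁.cherries = Q.cherries ∧ P₂.cherries = Q.cherries) ∧
    2 ≤ P₂.cherries ∧ P₂.cherries ≤ P₁.cherries ∧
    ∃ i j : ℕ, P₁.cherries = i * P₂.cherries + j * Q.cherries

/-- no node is balanced -/
def NoBalanced : Br → Prop
  | leaf => True
  | node P Q => NoBalanced P ∧ NoBalanced Q ∧ ¬ Balanced P Q ∧ ¬ Balanced Q P

lemma unif_iff (β : ℕ) : ∀ s : Br, Uniform β s ↔ Unif β s
  | leaf => Iff.rfl
  | node l r => by
    rw [unif_node, Uniform, unif_iff β l, unif_iff β r]

lemma aux (P Q : Br) (hQ : Q ≠ leaf) (hlt : Q.cherries < P.cherries)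
    (h2 : Q.cherries ≠ 1)
    (h : ¬ Balanced P Q) : ¬ (Q.cherries ∣ P.cherries ∧ Bad P Q) ∨ Tr P Q := by
  by_cases ht : Tr P Q
  · exact Or.inr ht
  left
  rintro ⟨h3, hu, P1, P2, a1, a2, a3, a8, a4, a5, a6, a7⟩
  have q1 := deg_sk_eq Q hQ
  have q2 := ThreeCherries.deg_pos (sk Q)
  apply h
  refine ⟨by omega, hlt, h3, ?_, P1, P2, a1, a5, a6, ?_, a8, a4, a7⟩
  · rintro ⟨β, b2⟩
    exact hu ⟨β, (unif_iff β Q).1 b2⟩
  · rintro ⟨b1, b2⟩
    rcases a1 with a1 | a1
    · exact ht ⟨P1, P2, a1, a2, a3, b1, b2⟩
    · exact ht ⟨P2, P1, a1, a3, a2, b2, b1⟩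

lemma nc_of (P Q : Br) (hP : P ≠ leaf) (hQ : Q ≠ leaf) (h1 : ¬ Balanced P Q)
    (h2 : ¬ Balanced Q P) : NC2 P Q := by
  by_cases c1 : P.cherries = 1
  · exact Or.inl c1
  by_cases c2 : Q.cherries = 1
  · exact Or.inr (Or.inl c2)
  by_cases c3 : P.cherries = Q.cherries
  · exact Or.inr (Or.inr (Or.inl c3))
  right; right; right; right; right
  rcases Nat.lt_or_gt_of_ne c3 with hlt | hgt
  · rcases aux Q P hP hlt c1 h2 with h | h
    · exact Or.inr (Or.inl ⟨hlt, h⟩)
    · exact Or.inr (Or.inr (Or.inr h))
  · rcases aux P Q hQ hgt c2 h1 with h | h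
    · exact Or.inl ⟨hgt, h⟩
    · exact Or.inr (Or.inr (Or.inl h))

lemma ok_of : ∀ s : Br, NoBalanced s → Ok2 s
  | leaf, _ => trivial
  | node P Q, h => by
    refine ⟨ok_of P h.1, ok_of Q h.2.1, ?_⟩
    by_cases hP : P = leaf
    · exact Or.inl hP
    by_cases hQ : Q = leaf
    · exact Or.inr (Or.inl hQ)
    exact Or.inr (Or.inr (nc_of P Q hP hQ h.2.2.1 h.2.2.2))

lemma two_le (s : Br) (hs : s ≠ leaf) : 2 * s.cherries ≤ s.deg := by
  have := deg_sk_eq s hs
  have := (deg_sk s hs).1
  omega

lemma ch_pos (s : Br) (hs : s ≠ leaf) : 1 ≤ s.cherries := by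
  rw [← deg_sk_eq s hs]
  exact ThreeCherries.deg_pos _

/-- structures all of whose letters are in cherries are uniform -/
lemma uniform_one : ∀ s : Br, s ≠ leaf → s.deg = 2 * s.cherries → Uniform 1 s
  | leaf, h, _ => absurd rfl h
  | node l r, _, h => by
    by_cases hl : l = leaf
    · subst hl
      by_cases hr : r = leaf
      · subst hr
        exact Or.inl ⟨rfl, rfl⟩
      · exfalso
        have h1 := two_le r hr
        rw [cherries_node leaf r (fun hh => hr hh.2)] at h
        have h2 : (node leaf r).deg = 1 + r.deg := rfl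
        have h3 : (leaf).cherries = 0 := rfl
        omega
    · by_cases hr : r = leaf
      · subst hr
        exfalso
        have h1 := two_le l hl
        rw [cherries_node l leaf (fun hh => hl hh.1)] at h
        have h2 : (node l leaf).deg = l.deg + 1 := rfl
        have h3 : (leaf).cherries = 0 := rfl
        omega
      · have h1 := two_le l hl
        have h2 := two_le r hr
        rw [cherries_node l r (fun hh => hl hh.1)] at h
        have h3 : (node l r).deg = l.deg + r.deg := rfl
        exact Or.inr ⟨hl, hr, uniform_one l hl (by omega), uniform_one r hr (by omega)⟩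

lemma split (P P1 P2 : Br) (h5 : P = node P1 P2 ∨ P = node P2 P1) (h10 : 2 ≤ P2.cherries)
    (h11 : P2.cherries ≤ P1.cherries) :
    P.deg = P1.deg + P2.deg ∧ P.cherries = P1.cherries + P2.cherries := by
  have h6 : P1 ≠ leaf := by
    rintro rfl
    have : (leaf).cherries = 0 := rfl
    omega
  have h7 : P2 ≠ leaf := by
    rintro rfl
    have : (leaf).cherries = 0 := rfl
    omega
  rcases h5 with rfl | rfl
  · exact ⟨rfl, by rw [cherries_node P1 P2 (fun hh => h6 hh.1)]⟩
  · exact ⟨by simp only [deg]; omega, by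
      rw [cherries_node P2 P1 (fun hh => h7 hh.1), add_comm]⟩

/-- a balanced node has at least 8 cherries -/
lemma eight (P Q : Br) (h : Balanced P Q) : 8 ≤ P.cherries + Q.cherries := by
  obtain ⟨h1, h2, ⟨k, hc⟩, h4, P1, P2, h5, h8, h9, h10, h11, h12, -⟩ := h
  obtain ⟨hd, hch⟩ := split P P1 P2 h5 h11 h12
  have hk : 2 ≤ k := by
    by_contra hc2
    have : k = 0 ∨ k = 1 := by omega
    rcases this with rfl | rfl <;> omega
  have hk2 : Q.cherries * 2 ≤ Q.cherries * k := Nat.mul_le_mul_left _ hk
  by_contra hlt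
  have hq : Q.cherries = 2 := by omega
  rw [hq] at hc h10
  omega

/-- a balanced node has at least 20 letters -/
lemma twenty (P Q : Br) (h : Balanced P Q) : 20 ≤ P.deg + Q.deg := by
  obtain ⟨h1, h2, ⟨k, hc⟩, h4, P1, P2, h5, h8, h9, h10, h11, h12, -⟩ := h
  obtain ⟨hd, hch⟩ := split P P1 P2 h5 h11 h12
  by_contra hlt
  have hQ : Q ≠ leaf := by
    rintro rfl
    have : (leaf).cherries = 0 := rfl
    omega
  have hk : 2 ≤ k := by
    by_contra hc2
    have : k = 0 ∨ k = 1 := by omega
    rcases this with rfl | rfl <;> omega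
  unfold SameRatio at h8 h9
  have hr : P.deg * Q.cherries = Q.deg * P.cherries := by
    rw [hd, hch, add_mul, mul_add, h8, h9]
  have hPk : P.deg = Q.deg * k := by
    have : P.deg * Q.cherries = (Q.deg * k) * Q.cherries := by rw [hr, hc]; ring
    exact Nat.eq_of_mul_eq_mul_right (by omega) this
  have hne : Q.deg ≠ 2 * Q.cherries := by
    intro he
    exact h4 ⟨1, uniform_one Q hQ he⟩
  have hq := two_le Q hQ
  have hk5 : Q.deg * 2 ≤ Q.deg * k := Nat.mul_le_mul_left _ hk
  have hq2 : Q.cherries = 2 := by omega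
  have hk2 : k = 2 := by
    by_contra hk3
    have : Q.deg * 3 ≤ Q.deg * k := Nat.mul_le_mul_left _ (by omega)
    omega
  subst hk2
  rw [hq2] at hc h10
  omega

lemma nb_cherries : ∀ s : Br, s.cherries ≤ 7 → NoBalanced s
  | leaf, _ => trivial
  | node P Q, h => by
    have e : ¬ (P = leaf ∧ Q = leaf) → (node P Q).cherries = P.cherries + Q.cherries :=
      fun hh => cherries_node P Q hh
    by_cases hh : P = leaf ∧ Q = leaf
    · obtain ⟨rfl, rfl⟩ := hh
      refine ⟨trivial, trivial, fun hb => ?_, fun hb => ?_⟩ <;>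
      · have := eight _ _ hb
        simp [cherries] at this
    · rw [e hh] at h
      refine ⟨nb_cherries P (by omega), nb_cherries Q (by omega), fun hb => ?_, fun hb => ?_⟩
      · have := eight _ _ hb; omega
      · have := eight _ _ hb; omega

lemma nb_deg : ∀ s : Br, s.deg ≤ 19 → NoBalanced s
  | leaf, _ => trivial
  | node P Q, h => by
    have e : (node P Q).deg = P.deg + Q.deg := rfl
    have h1 := ThreeCherries.deg_pos P
    have h2 := ThreeCherries.deg_pos Q
    refine ⟨nb_deg P (by omega), nb_deg Q (by omega), fun hb => ?_, fun hb => ?_⟩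
    · have := twenty _ _ hb; omega
    · have := twenty _ _ hb; omega

lemma sk_deg_le (s : Br) : (sk s).deg ≤ s.deg := by
  by_cases hs : s = leaf
  · subst hs; exact le_rfl
  · have := (deg_sk s hs).1; omega

lemma iter_deg_le (s : Br) : ∀ j : ℕ, (sk^[j] s).deg ≤ s.deg
  | 0 => le_rfl
  | j + 1 => by
    rw [Function.iterate_succ_apply']
    exact (sk_deg_le _).trans (iter_deg_le s j)

/-- **Theorem.** Let `K` be any field.
(1) Bahturin's question has a positive answer for all bracket structures `s` such that neither `s`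
nor any of its iterated skeletons has a balanced node, and arbitrary `t`.
(2) It has a positive answer for all bracket structures `s` with at most 19 letters.
(3) It has a positive answer for all bracket structures `s` with at most 7 cherries (and any number
of letters). -/
theorem result (K : Type u) [Field K] :
    (∀ s : Br, (∀ j : ℕ, NoBalanced (sk^[j] s)) → ∀ t : Br, (EquivId K s t ↔ CEq s t)) ∧
    (∀ s : Br, s.deg ≤ 19 → ∀ t : Br, (EquivId K s t ↔ CEq s t)) ∧
    (∀ s : Br, s.cherries ≤ 7 → ∀ t : Br, (EquivId K s t ↔ CEq s t)) := by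
  have main : ∀ s : Br, (∀ j : ℕ, NoBalanced (sk^[j] s)) → ∀ t : Br,
      (EquivId K s t ↔ CEq s t) := fun s hs t =>
    ⟨fun h => (main4 hyp.{u} s.deg s le_rfl (fun j => ok_of _ (hs j))).2 K t (deg_eq K s t h)
      (NEQ2 K s t h), holds_of_CEq⟩
  refine ⟨main, fun s hs => main s fun j => nb_deg _ ((iter_deg_le s j).trans hs),
    fun s hs => main s fun j => ?_⟩
  cases j with
  | zero => exact nb_cherries s hs
  | succ j =>
    rw [Function.iterate_succ_apply]
    apply nb_deg
    refine (iter_deg_le (sk s) j).trans ?_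
    by_cases hl : s = leaf
    · subst hl
      show (leaf).deg ≤ 19
      simp only [deg]; omega
    · rw [deg_sk_eq s hl]; omega

end Pool.Agent.Results.MP_5ecbac_al.BalancedNodes
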